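import Mathlib

/-!
# Ultrafilter limits of second order Taylor expansions
-/

set_option autoImplicit false

namespace Pool.Agent.US

open Finset Filter Topology

/-- bounded real sequences converge along an ultrafilter -/
lemma ulim_exists (U : Ultrafilter ℕ) (f : ℕ → ℝ) (C : ℝ) (h : ∀ᶠ k in (U : Filter ℕ), |f k| ≤ C) :
    ∃ a : ℝ, Tendsto f (U : Filter ℕ) (𝓝 a) := by
  have h1 : (U.map f : Filter ℝ) ≤ 𝓟 (Set.Icc (-C) C) := by
    rw [le_principal_iff]
    show f ⁻¹' (Set.Icc (-C) C) ∈ (U : Filter ℕ)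
    filter_upwards [h] with k hk
    exact abs_le.1 hk
  obtain ⟨a, _, ha⟩ := (isCompact_Icc (a := -C) (b := C)).ultrafilter_le_nhds (U.map f) h1
  exact ⟨a, ha⟩

theorem lim_taylor {E : Type} [AddCommGroup E] [Module ℝ E] (ψ : ℕ → E → ℝ) (Φ : E → ℝ)
    (L : ℕ → E → E →ₗ[ℝ] ℝ) (B : ℕ → E → E →ₗ[ℝ] E →ₗ[ℝ] ℝ) (R : E → E → ℝ)
    (Rk : ℕ → E → E → ℝ) (hψ : ∀ x, Tendsto (fun k => ψ k x) atTop (𝓝 (Φ x)))
    (hB : ∀ k x h l, B k x h l = B k x l h)
    (hR : ∀ x h, ∀ᶠ k in atTop,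
      |ψ k (x + h) - ψ k x - L k x h - 1 / 2 * B k x h h| ≤ Rk k x h)
    (hRk : ∀ x h, Tendsto (fun k => Rk k x h) atTop (𝓝 (R x h))) :
    ∃ (L' : E → E →ₗ[ℝ] ℝ) (B' : E → E →ₗ[ℝ] E →ₗ[ℝ] ℝ), (∀ x h l, B' x h l = B' x l h) ∧
      ∀ x h, |Φ (x + h) - Φ x - L' x h - 1 / 2 * B' x h h| ≤ R x h := by
  -- the ultrafilter
  set U : Ultrafilter ℕ := Filter.hyperfilter ℕ with hU
  have hUle : (U : Filter ℕ) ≤ atTop := by
    rw [← Nat.cofinite_eq_atTop]
    exact Filter.hyperfilter_le_cofinite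
  -- boundedness of convergent sequences
  have hbdd : ∀ (f : ℕ → ℝ) (a : ℝ), Tendsto f atTop (𝓝 a) →
      ∀ᶠ k in (U : Filter ℕ), |f k| ≤ |a| + 1 := by
    intro f a hf
    have h1 : ∀ᶠ k in atTop, |f k| < |a| + 1 :=
      (hf.abs).eventually_lt_const (by linarith)
    exact (h1.filter_mono hUle).mono fun k hk => hk.le
  -- boundedness of the quadratic expressions
  have hQ : ∀ x h, ∃ C : ℝ, ∀ᶠ k in (U : Filter ℕ), |L k x h + 1 / 2 * B k x h h| ≤ C := by
    intro x h
    refine ⟨(|Φ (x + h)| + 1) + (|Φ x| + 1) + (|R x h| + 1), ?_⟩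
    filter_upwards [hbdd _ _ (hψ (x + h)), hbdd _ _ (hψ x), hbdd _ _ (hRk x h),
      (hR x h).filter_mono hUle] with k h1 h2 h3 h4
    have h5 := (abs_le.1 h1)
    have h6 := (abs_le.1 h2)
    have h7 := (abs_le.1 h3)
    have h8 := (abs_le.1 h4)
    rw [abs_le]
    constructor <;> linarith
  have hL : ∀ x h, ∃ a : ℝ, Tendsto (fun k => L k x h) (U : Filter ℕ) (𝓝 a) := by
    intro x h
    obtain ⟨C1, h1⟩ := hQ x h
    obtain ⟨C2, h2⟩ := hQ x (-h)
    refine ulim_exists U _ (C1 + C2) ?_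
    filter_upwards [h1, h2] with k h3 h4
    rw [map_neg, map_neg, map_neg, LinearMap.neg_apply, neg_neg] at h4
    have h5 := abs_le.1 h3
    have h6 := abs_le.1 h4
    rw [abs_le]
    constructor <;> linarith
  have hBd : ∀ x h, ∃ C : ℝ, ∀ᶠ k in (U : Filter ℕ), |B k x h h| ≤ C := by
    intro x h
    obtain ⟨C1, h1⟩ := hQ x h
    obtain ⟨C2, h2⟩ := hQ x (-h)
    refine ⟨C1 + C2, ?_⟩
    filter_upwards [h1, h2] with k h3 h4
    rw [map_neg, map_neg, map_neg, LinearMap.neg_apply, neg_neg] at h4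
    have h5 := abs_le.1 h3
    have h6 := abs_le.1 h4
    rw [abs_le]
    constructor <;> linarith
  have hBl : ∀ x h l, ∃ a : ℝ, Tendsto (fun k => B k x h l) (U : Filter ℕ) (𝓝 a) := by
    intro x h l
    obtain ⟨C1, h1⟩ := hBd x (h + l)
    obtain ⟨C2, h2⟩ := hBd x h
    obtain ⟨C3, h3⟩ := hBd x l
    refine ulim_exists U _ (C1 + C2 + C3) ?_
    filter_upwards [h1, h2, h3] with k h4 h5 h6
    have h7 : B k x (h + l) (h + l) = B k x h h + B k x l l + 2 * B k x h l := by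
      rw [map_add, map_add, LinearMap.add_apply, LinearMap.add_apply, hB k x l h]
      ring
    rw [h7] at h4
    have h8 := abs_le.1 h4
    have h9 := abs_le.1 h5
    have h10 := abs_le.1 h6
    rw [abs_le]
    constructor <;> linarith
  choose l hl using hL
  choose b hb using hBl
  have huniq : ∀ {f g : ℕ → ℝ} {a c : ℝ}, Tendsto f (U : Filter ℕ) (𝓝 a) →
      Tendsto g (U : Filter ℕ) (𝓝 c) → (∀ k, f k = g k) → a = c := by
    intro f g a c hf hg hfg
    have : f = g := funext hfg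
    rw [this] at hf
    exact tendsto_nhds_unique hf hg
  refine ⟨fun x =>
    { toFun := l x
      map_add' := fun h h' => huniq (hl x (h + h')) ((hl x h).add (hl x h'))
        fun k => map_add _ _ _
      map_smul' := fun c h => huniq (hl x (c • h)) ((hl x h).const_mul c)
        fun k => by rw [map_smul]; rfl },
    fun x => LinearMap.mk₂ ℝ (b x)
      (fun h h' m => huniq (hb x (h + h') m) ((hb x h m).add (hb x h' m))
        fun k => by rw [map_add]; rfl)
      (fun c h m => huniq (hb x (c • h) m) ((hb x h m).const_mul c)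
        fun k => by rw [map_smul]; rfl)
      (fun h m m' => huniq (hb x h (m + m')) ((hb x h m).add (hb x h m'))
        fun k => map_add _ _ _)
      (fun c h m => huniq (hb x h (c • m)) ((hb x h m).const_mul c)
        fun k => by rw [map_smul]; rfl), ?_, ?_⟩
  · intro x h m
    exact huniq (hb x h m) (hb x m h) fun k => hB k x h m
  · intro x h
    show |Φ (x + h) - Φ x - l x h - 1 / 2 * b x h h| ≤ R x h
    have h1 : Tendsto (fun k => |ψ k (x + h) - ψ k x - L k x h - 1 / 2 * B k x h h|)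
        (U : Filter ℕ) (𝓝 |Φ (x + h) - Φ x - l x h - 1 / 2 * b x h h|) :=
      (((((hψ (x + h)).mono_left hUle).sub ((hψ x).mono_left hUle)).sub (hl x h)).sub
        ((hb x h h).const_mul (1 / 2))).abs
    exact le_of_tendsto_of_tendsto h1 ((hRk x h).mono_left hUle) ((hR x h).filter_mono hUle)

end Pool.Agent.US
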